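import Pool.Agent.Helper634.Matvec.Defs

/-!
A polynomial in `log n` is eventually smaller than `T`, for `n = T (T+1)^2`.
-/

namespace Pool.Agent.Helper964.Matvec

open Pool.Agent.Helper634.Matvec
open Filter Asymptotics

lemma card_HId (T : ℕ) : Fintype.card (HId T) = (T + 1) * ((T + 1) * T) := by
  simp [Fintype.card_prod]

lemma log_card_le (T : ℕ) (hT : 1 ≤ T) :
    Real.log (Fintype.card (HId T) : ℝ) ≤ 3 * Real.log ((T : ℝ) + 1) := by
  have h1 : (0 : ℝ) < (Fintype.card (HId T) : ℝ) := by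
    rw [card_HId]
    have : 0 < (T + 1) * ((T + 1) * T) := by positivity
    exact_mod_cast this
  have h2 : (Fintype.card (HId T) : ℝ) ≤ ((T : ℝ) + 1) ^ 3 := by
    rw [card_HId]
    push_cast
    have : (0 : ℝ) ≤ T := Nat.cast_nonneg T
    nlinarith [sq_nonneg ((T : ℝ) + 1)]
  calc Real.log (Fintype.card (HId T) : ℝ) ≤ Real.log (((T : ℝ) + 1) ^ 3) :=
        Real.log_le_log h1 h2
    _ = 3 * Real.log ((T : ℝ) + 1) := by rw [Real.log_pow]; norm_num

lemma poly_growth (q : Polynomial ℝ) : ∃ (C : ℝ) (d : ℕ), 0 ≤ C ∧ ∀ x X : ℝ, 0 ≤ x → x ≤ X →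
    1 ≤ X → q.eval x ≤ C * X ^ d := by
  refine ⟨∑ i ∈ Finset.range (q.natDegree + 1), |q.coeff i|, q.natDegree,
    Finset.sum_nonneg fun _ _ => abs_nonneg _, fun x X hx hxX hX => ?_⟩
  rw [Polynomial.eval_eq_sum_range, Finset.sum_mul]
  refine Finset.sum_le_sum fun i hi => ?_
  have hi' := Finset.mem_range.1 hi
  have h1 : x ^ i ≤ X ^ q.natDegree :=
    (pow_le_pow_left₀ hx hxX i).trans (pow_le_pow_right₀ hX (by omega))
  calc q.coeff i * x ^ i ≤ |q.coeff i| * x ^ i :=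
        mul_le_mul_of_nonneg_right (le_abs_self _) (pow_nonneg hx i)
    _ ≤ |q.coeff i| * X ^ q.natDegree := mul_le_mul_of_nonneg_left h1 (abs_nonneg _)

lemma eventually_log (C : ℝ) (d : ℕ) (hC : 0 ≤ C) :
    ∀ᶠ T : ℕ in atTop, C * (123 * Real.log ((T : ℝ) + 1)) ^ d ≤ T := by
  have h1 := (Real.isLittleO_pow_log_id_atTop (n := d)).def
    (show (0 : ℝ) < 1 / (2 * (C + 1) * 123 ^ d) by positivity)
  have ht : Tendsto (fun T : ℕ => ((T : ℝ) + 1)) atTop atTop :=
    tendsto_atTop_add_const_right _ _ tendsto_natCast_atTop_atTop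
  filter_upwards [ht.eventually h1, eventually_ge_atTop 1] with T hT hT1
  have hT1' : (1 : ℝ) ≤ T := by exact_mod_cast hT1
  have hl : 0 ≤ Real.log ((T : ℝ) + 1) := Real.log_nonneg (by linarith)
  rw [Real.norm_of_nonneg (pow_nonneg hl d)] at hT
  simp only [id_eq] at hT
  rw [Real.norm_of_nonneg (by linarith : (0 : ℝ) ≤ (T : ℝ) + 1)] at hT
  rw [mul_pow]
  have h2 : C * (123 ^ d * Real.log ((T : ℝ) + 1) ^ d) ≤
      (C + 1) * 123 ^ d * (1 / (2 * (C + 1) * 123 ^ d) * ((T : ℝ) + 1)) := by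
    calc C * (123 ^ d * Real.log ((T : ℝ) + 1) ^ d)
        ≤ (C + 1) * (123 ^ d * Real.log ((T : ℝ) + 1) ^ d) := by
          apply mul_le_mul_of_nonneg_right (by linarith)
          positivity
      _ = (C + 1) * 123 ^ d * Real.log ((T : ℝ) + 1) ^ d := by ring
      _ ≤ (C + 1) * 123 ^ d * (1 / (2 * (C + 1) * 123 ^ d) * ((T : ℝ) + 1)) :=
          mul_le_mul_of_nonneg_left hT (by positivity)
  refine h2.trans ?_
  have h3 : (C + 1) * 123 ^ d * (1 / (2 * (C + 1) * 123 ^ d) * ((T : ℝ) + 1)) =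
      ((T : ℝ) + 1) / 2 := by
    field_simp
  rw [h3]
  linarith

/-- The threshold. -/
theorem exists_T (p : MvPolynomial (Fin 2) ℝ) : ∃ T : ℕ, 10 ≤ T ∧ ∀ x : ℝ, 0 ≤ x →
    x ≤ 41 * Real.log (Fintype.card (HId T) : ℝ) → MvPolynomial.eval ![x, 1 / (1 / 8)] p ≤ T := by
  set q : Polynomial ℝ := MvPolynomial.aeval ![Polynomial.X, Polynomial.C (1 / (1 / 8))] p with hq
  have hqe : ∀ x : ℝ, q.eval x = MvPolynomial.eval ![x, 1 / (1 / 8)] p := by
    intro x
    rw [hq, MvPolynomial.aeval_def, ← Polynomial.coe_evalRingHom, MvPolynomial.hom_eval₂]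
    rw [MvPolynomial.eval, MvPolynomial.coe_eval₂Hom]
    congr 1
    · ext r; simp
    · funext i
      fin_cases i <;> simp
  obtain ⟨C, d, hC, hCd⟩ := poly_growth q
  obtain ⟨T, hT, hT10⟩ := ((eventually_log C d hC).and (eventually_ge_atTop 10)).exists
  refine ⟨T, hT10, fun x hx0 hx => ?_⟩
  rw [← hqe]
  have hT1' : (10 : ℝ) ≤ T := by exact_mod_cast hT10
  have hlog1 : 1 ≤ Real.log ((T : ℝ) + 1) := by
    rw [Real.le_log_iff_exp_le (by linarith)]
    have := Real.exp_one_lt_d9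
    linarith
  refine (hCd x (123 * Real.log ((T : ℝ) + 1)) hx0 ?_ ?_).trans hT
  · have := log_card_le T (by omega)
    linarith
  · linarith

end Pool.Agent.Helper964.Matvec
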