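import Pool.Agent.Helper634.Matvec.Defs

/-!
Piece III of the lower bound for MP_4289a5_an: explicit diagonalisation of `core T g`.
-/

namespace Pool.Agent.Helper964.Matvec

open Pool.Agent.Helper634.Matvec
open scoped BigOperators

/-- a power sum of roots of unity -/
lemma sum_pow_fin {N : ℕ} {ξ : ℂ} (h1 : ξ ≠ 1) (h2 : ξ ^ N = 1) :
    ∑ k : Fin N, ξ ^ (k : ℕ) = 0 := by
  rw [Fin.sum_univ_eq_sum_range (fun k => ξ ^ k) N]
  have h3 := mul_geom_sum ξ N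
  rw [h2, sub_self] at h3
  rcases mul_eq_zero.1 h3 with h | h
  · exact absurd (sub_eq_zero.1 h) h1
  · exact h

/-- eigenvalues: `γ ζ^k` -/
noncomputable def mu (T : ℕ) (γ ζ : ℂ) (k : Fin (T + 1)) : ℂ := γ * ζ ^ (k : ℕ)

/-- eigenvector matrix -/
noncomputable def V0 (T : ℕ) (γ ζ : ℂ) : Matrix (HId T) (HId T) ℂ := fun x y =>
  if x.2 = y.2 then (mu T γ ζ y.1) ^ (-((x.1 : ℕ) : ℤ)) else 0

/-- the inverse of the eigenvector matrix -/
noncomputable def W0 (T : ℕ) (γ ζ : ℂ) : Matrix (HId T) (HId T) ℂ := fun x y =>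
  if x.2 = y.2 then (mu T γ ζ x.1) ^ (((y.1 : ℕ) : ℤ)) / ((T : ℂ) + 1) else 0

lemma mu_ne_zero {T : ℕ} {γ ζ : ℂ} (hγ : γ ≠ 0) (hζ : IsPrimitiveRoot ζ (T + 1))
    (k : Fin (T + 1)) : mu T γ ζ k ≠ 0 :=
  mul_ne_zero hγ (pow_ne_zero _ (hζ.ne_zero (Nat.succ_ne_zero T)))

lemma sum_mu_zpow {T : ℕ} {γ ζ : ℂ} (hζ : IsPrimitiveRoot ζ (T + 1)) (m : ℤ)
    (hm : ¬ ((T : ℤ) + 1 ∣ m)) :
    ∑ k : Fin (T + 1), (mu T γ ζ k) ^ m = 0 := by
  have h1 : ∀ k : Fin (T + 1), (mu T γ ζ k) ^ m = γ ^ m * (ζ ^ m) ^ (k : ℕ) := by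
    intro k
    unfold mu
    rw [mul_zpow, ← zpow_natCast, ← zpow_mul, ← zpow_natCast, ← zpow_mul, mul_comm m]
  simp only [h1]
  rw [← Finset.mul_sum, sum_pow_fin, mul_zero]
  · intro h
    apply hm
    have := (hζ.zpow_eq_one_iff_dvd m).1 h
    exact_mod_cast this
  · rw [← zpow_natCast, ← zpow_mul, mul_comm, zpow_mul, zpow_natCast, hζ.pow_eq_one, one_zpow]

lemma sum_block {T : ℕ} (f : Fin (T + 1) → ℂ) (r s : Fin (T + 1) × Fin T) :
    ∑ y : HId T, (if r = y.2 then (if y.2 = s then f y.1 else 0) else 0) =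
      if r = s then ∑ k : Fin (T + 1), f k else 0 := by
  rw [Fintype.sum_prod_type]
  by_cases h : r = s
  · subst h
    rw [if_pos rfl]
    refine Finset.sum_congr rfl fun k _ => ?_
    rw [Finset.sum_eq_single r]
    · simp
    · intro b _ hb
      rw [if_neg (fun h => hb h.symm)]
    · intro h; exact absurd (Finset.mem_univ _) h
  · rw [if_neg h]
    refine Finset.sum_eq_zero fun k _ => Finset.sum_eq_zero fun b _ => ?_
    by_cases h1 : r = b
    · subst h1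
      rw [if_pos rfl, if_neg h]
    · rw [if_neg h1]

lemma V0_mul_W0 {T : ℕ} {γ ζ : ℂ} (hγ : γ ≠ 0) (hζ : IsPrimitiveRoot ζ (T + 1)) :
    V0 T γ ζ * W0 T γ ζ = 1 := by
  have hN : ((T : ℂ) + 1) ≠ 0 := by exact_mod_cast Nat.succ_ne_zero T
  ext x z
  rw [Matrix.mul_apply]
  have h1 : ∀ y : HId T, V0 T γ ζ x y * W0 T γ ζ y z =
      if x.2 = y.2 then (if y.2 = z.2 then
        (mu T γ ζ y.1) ^ (((z.1 : ℕ) : ℤ) - ((x.1 : ℕ) : ℤ)) / ((T : ℂ) + 1) else 0) else 0 := by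
    intro y
    unfold V0 W0
    by_cases h1 : x.2 = y.2
    · by_cases h2 : y.2 = z.2
      · rw [if_pos h1, if_pos h2, if_pos h1, if_pos h2, sub_eq_neg_add,
          zpow_add₀ (mu_ne_zero hγ hζ _), mul_div_assoc]
      · simp [h2]
    · simp [h1]
  rw [Finset.sum_congr rfl (fun y _ => h1 y), sum_block (fun k =>
    (mu T γ ζ k) ^ (((z.1 : ℕ) : ℤ) - ((x.1 : ℕ) : ℤ)) / ((T : ℂ) + 1)), ← Finset.sum_div]
  by_cases h2 : x.2 = z.2
  · rw [if_pos h2]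
    by_cases h3 : x.1 = z.1
    · have h4 : x = z := Prod.ext h3 h2
      subst h4
      simp [hN]
    · have h5 : ¬ ((T : ℤ) + 1 ∣ (((z.1 : ℕ) : ℤ) - ((x.1 : ℕ) : ℤ))) := by
        intro hd
        have hx := x.1.isLt
        have hz := z.1.isLt
        have h6 : (((z.1 : ℕ) : ℤ) - ((x.1 : ℕ) : ℤ)) = 0 := by
          apply Int.eq_zero_of_abs_lt_dvd hd
          rw [abs_lt]; constructor <;> omega
        apply h3
        apply Fin.ext
        omega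
      rw [sum_mu_zpow hζ _ h5, zero_div]
      have h6 : x ≠ z := fun h => h3 (by rw [h])
      rw [Matrix.one_apply_ne h6]
  · rw [if_neg h2]
    have h6 : x ≠ z := fun h => h2 (by rw [h])
    rw [Matrix.one_apply_ne h6]

lemma core_eq {T : ℕ} {γ ζ : ℂ} (hγ : γ ≠ 0) (hζ : IsPrimitiveRoot ζ (T + 1)) :
    core T (γ ^ (T + 1)) =
      V0 T γ ζ * Matrix.diagonal (fun y : HId T => mu T γ ζ y.1) * W0 T γ ζ := by
  have hN : ((T : ℂ) + 1) ≠ 0 := by exact_mod_cast Nat.succ_ne_zero T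
  ext x z
  rw [Matrix.mul_apply]
  have h1 : ∀ y : HId T, (V0 T γ ζ * Matrix.diagonal (fun y : HId T => mu T γ ζ y.1)) x y *
      W0 T γ ζ y z =
      if x.2 = y.2 then (if y.2 = z.2 then
        (mu T γ ζ y.1) ^ (((z.1 : ℕ) : ℤ) + 1 - ((x.1 : ℕ) : ℤ)) / ((T : ℂ) + 1) else 0)
        else 0 := by
    intro y
    rw [Matrix.mul_diagonal]
    unfold V0 W0
    have h0 := mu_ne_zero hγ hζ y.1
    by_cases h1 : x.2 = y.2
    · by_cases h2 : y.2 = z.2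
      · rw [if_pos h1, if_pos h2, if_pos h1, if_pos h2]
        rw [show (((z.1 : ℕ) : ℤ) + 1 - ((x.1 : ℕ) : ℤ)) =
          -((x.1 : ℕ) : ℤ) + 1 + ((z.1 : ℕ) : ℤ) by ring, zpow_add₀ h0, zpow_add₀ h0, zpow_one,
          mul_div_assoc]
      · simp [h2]
    · simp [h1]
  rw [Finset.sum_congr rfl (fun y _ => h1 y), sum_block (fun k =>
    (mu T γ ζ k) ^ (((z.1 : ℕ) : ℤ) + 1 - ((x.1 : ℕ) : ℤ)) / ((T : ℂ) + 1)), ← Finset.sum_div]
  unfold core
  by_cases h2 : x.2 = z.2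
  · rw [if_pos h2, if_pos h2]
    by_cases h3 : (x.1 : ℕ) = (z.1 : ℕ) + 1
    · rw [if_pos h3, h3]
      push_cast
      simp [hN]
    · rw [if_neg h3]
      by_cases h4 : (x.1 : ℕ) = 0 ∧ (z.1 : ℕ) = T
      · rw [if_pos h4, h4.1, h4.2]
        have h5 : ∀ k : Fin (T + 1), (mu T γ ζ k) ^ (((T : ℕ) : ℤ) + 1 - ((0 : ℕ) : ℤ)) =
            γ ^ (T + 1) := by
          intro k
          rw [show (((T : ℕ) : ℤ) + 1 - ((0 : ℕ) : ℤ)) = (((T + 1 : ℕ)) : ℤ) by push_cast; ring,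
            zpow_natCast]
          unfold mu
          rw [mul_pow, ← pow_mul, mul_comm (k : ℕ), pow_mul, hζ.pow_eq_one, one_pow, mul_one]
        simp only [h5]
        simp only [Finset.sum_const, Finset.card_univ, Fintype.card_fin, nsmul_eq_mul]
        push_cast
        field_simp
      · rw [if_neg h4]
        have h5 : ¬ ((T : ℤ) + 1 ∣ (((z.1 : ℕ) : ℤ) + 1 - ((x.1 : ℕ) : ℤ))) := by
          intro hd
          have hx := x.1.isLt
          have hz := z.1.isLt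
          by_cases h7 : (x.1 : ℕ) = 0
          · have h8 : (z.1 : ℕ) ≠ T := fun h => h4 ⟨h7, h⟩
            have h6 : (((z.1 : ℕ) : ℤ) + 1 - ((x.1 : ℕ) : ℤ)) = 0 := by
              apply Int.eq_zero_of_abs_lt_dvd hd
              rw [abs_lt]; constructor <;> omega
            omega
          · have h6 : (((z.1 : ℕ) : ℤ) + 1 - ((x.1 : ℕ) : ℤ)) = 0 := by
              apply Int.eq_zero_of_abs_lt_dvd hd
              rw [abs_lt]; constructor <;> omega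
            omega
        rw [sum_mu_zpow hζ _ h5, zero_div]
  · rw [if_neg h2, if_neg h2]

/-- the conjugated form -/
lemma cj_eq {T : ℕ} {γ ζ : ℂ} (hγ : γ ≠ 0) (hζ : IsPrimitiveRoot ζ (T + 1))
    (L : Matrix (HId T) (HId T) ℂ) (hL : L.det ≠ 0) :
    IsUnit (L⁻¹ * V0 T γ ζ) ∧ (L⁻¹ * V0 T γ ζ)⁻¹ = W0 T γ ζ * L ∧
    cj (γ ^ (T + 1)) L = (L⁻¹ * V0 T γ ζ) * Matrix.diagonal (fun y : HId T => mu T γ ζ y.1) *
      (L⁻¹ * V0 T γ ζ)⁻¹ := by
  have hLu : IsUnit L.det := isUnit_iff_ne_zero.2 hL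
  have h1 : (L⁻¹ * V0 T γ ζ) * (W0 T γ ζ * L) = 1 := by
    rw [Matrix.mul_assoc, ← Matrix.mul_assoc (V0 T γ ζ), V0_mul_W0 hγ hζ, Matrix.one_mul,
      Matrix.nonsing_inv_mul _ hLu]
  have h2 : (L⁻¹ * V0 T γ ζ)⁻¹ = W0 T γ ζ * L := Matrix.inv_eq_right_inv h1
  refine ⟨?_, h2, ?_⟩
  · exact IsUnit.of_mul_eq_one _ h1
  · rw [h2]
    unfold cj
    rw [core_eq hγ hζ]
    simp only [Matrix.mul_assoc]

/-- the positive real root -/
lemma exists_root {T : ℕ} {g : ℝ} (hg : 0 < g) : ∃ γ : ℝ, 0 < γ ∧ γ ^ (T + 1) = g := by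
  refine ⟨g ^ ((1 : ℝ) / ((T : ℝ) + 1)), Real.rpow_pos_of_pos hg _, ?_⟩
  rw [← Real.rpow_natCast, ← Real.rpow_mul hg.le]
  have : ((1 : ℝ) / ((T : ℝ) + 1)) * ((T + 1 : ℕ) : ℝ) = 1 := by
    push_cast
    field_simp
  rw [this, Real.rpow_one]

theorem diag_piece (T : ℕ) (_hT : 1 ≤ T) (g : ℝ) (hg : 0 < g)
    (L : Matrix (HId T) (HId T) ℂ) (hL : L.det ≠ 0) :
    ∃ (V : Matrix (HId T) (HId T) ℂ) (d : HId T → ℂ), IsUnit V ∧
      cj (g : ℂ) L = V * Matrix.diagonal d * V⁻¹ := by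
  obtain ⟨γ, hγ, hγ2⟩ := exists_root (T := T) hg
  have hζ := Complex.isPrimitiveRoot_exp (T + 1) (Nat.succ_ne_zero T)
  have hγ0 : (γ : ℂ) ≠ 0 := by exact_mod_cast hγ.ne'
  obtain ⟨h1, _, h3⟩ := cj_eq hγ0 hζ L hL
  refine ⟨_, fun y => mu T (γ : ℂ) (Complex.exp (2 * Real.pi * Complex.I / ((T + 1 : ℕ) : ℂ))) y.1,
    h1, ?_⟩
  rw [← h3]
  congr 1
  rw [← hγ2]; push_cast; rfl

/-- crude bound on the operator norm -/
lemma opN_le {ι : Type*} [Fintype ι] [DecidableEq ι] (M : Matrix ι ι ℂ) {c : ℝ} (hc : 0 ≤ c)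
    (h : ∀ i j, ‖M i j‖ ≤ c) : opN M ≤ (Fintype.card ι : ℝ) ^ 2 * c := by
  unfold opN
  refine ContinuousLinearMap.opNorm_le_bound _ (by positivity) fun x => ?_
  have h1 : ∀ i, ‖(Matrix.toEuclideanCLM (𝕜 := ℂ) M x) i‖ ≤ (Fintype.card ι : ℝ) * c * ‖x‖ := by
    intro i
    have h2 : (Matrix.toEuclideanCLM (𝕜 := ℂ) M x) i = ∑ j, M i j * x j := by
      rw [Matrix.ofLp_toEuclideanCLM]; rfl
    rw [h2]
    refine (norm_sum_le _ _).trans ?_
    have h3 : ∀ j ∈ Finset.univ, ‖M i j * x j‖ ≤ c * ‖x‖ := by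
      intro j _
      rw [norm_mul]
      exact mul_le_mul (h i j) (PiLp.norm_apply_le x j) (norm_nonneg _) hc
    refine (Finset.sum_le_sum h3).trans ?_
    simp [mul_assoc]
  have h4 : ‖Matrix.toEuclideanCLM (𝕜 := ℂ) M x‖ ≤
      ∑ i, ‖(Matrix.toEuclideanCLM (𝕜 := ℂ) M x) i‖ := by
    rw [EuclideanSpace.norm_eq]
    refine Real.sqrt_le_iff.2 ⟨Finset.sum_nonneg fun _ _ => norm_nonneg _, ?_⟩
    exact Finset.sum_sq_le_sq_sum_of_nonneg fun i _ => norm_nonneg _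
  refine h4.trans ?_
  refine (Finset.sum_le_sum fun i _ => h1 i).trans ?_
  simp only [Finset.sum_const, Finset.card_univ, nsmul_eq_mul]
  apply le_of_eq; ring

lemma opN_mul_le {ι : Type*} [Fintype ι] [DecidableEq ι] (A B : Matrix ι ι ℂ) :
    opN (A * B) ≤ opN A * opN B := by
  unfold opN
  rw [map_mul]
  exact norm_mul_le _ _

lemma opN_nonneg {ι : Type*} [Fintype ι] [DecidableEq ι] (A : Matrix ι ι ℂ) : 0 ≤ opN A :=
  norm_nonneg _

lemma norm_mu {T : ℕ} {γ : ℝ} {ζ : ℂ} (hγ : 0 < γ) (hζ : IsPrimitiveRoot ζ (T + 1))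
    (k : Fin (T + 1)) : ‖mu T (γ : ℂ) ζ k‖ = γ := by
  unfold mu
  rw [norm_mul, norm_pow, hζ.norm'_eq_one (Nat.succ_ne_zero T), one_pow, mul_one,
    Complex.norm_real, Real.norm_of_nonneg hγ.le]

lemma norm_V0_le {T : ℕ} {γ : ℝ} {ζ : ℂ} (hγ : 0 < γ) (hγ1 : γ ≤ 1)
    (hζ : IsPrimitiveRoot ζ (T + 1)) (x y : HId T) :
    ‖V0 T (γ : ℂ) ζ x y‖ ≤ (γ ^ (T + 1))⁻¹ := by
  unfold V0
  have h0 : 0 < γ ^ (T + 1) := pow_pos hγ _
  split_ifs
  · rw [zpow_neg, zpow_natCast, norm_inv, norm_pow, norm_mu hγ hζ]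
    have h2 := x.1.isLt
    exact inv_anti₀ h0 (pow_le_pow_of_le_one hγ.le hγ1 (by omega))
  · rw [norm_zero]; positivity

lemma norm_W0_le {T : ℕ} {γ : ℝ} {ζ : ℂ} (hγ : 0 < γ) (hγ1 : γ ≤ 1)
    (hζ : IsPrimitiveRoot ζ (T + 1)) (x y : HId T) :
    ‖W0 T (γ : ℂ) ζ x y‖ ≤ 1 := by
  unfold W0
  split_ifs
  · rw [zpow_natCast, norm_div, norm_pow, norm_mu hγ hζ]
    have h1 : ‖((T : ℂ) + 1)‖ = (T : ℝ) + 1 := by
      have : ((T : ℂ) + 1) = (((T : ℝ) + 1 : ℝ) : ℂ) := by push_cast; rfl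
      rw [this, Complex.norm_real, Real.norm_of_nonneg (by positivity)]
    rw [h1, div_le_one (by positivity)]
    have h2 : γ ^ (y.1 : ℕ) ≤ 1 := pow_le_one₀ hγ.le hγ1
    have h3 : (0 : ℝ) ≤ T := Nat.cast_nonneg T
    linarith
  · rw [norm_zero]; exact zero_le_one

theorem kappa_piece (T : ℕ) (hT : 10 ≤ T) (L : Matrix (HId T) (HId T) ℂ) (hL : GoodL L) :
    ∃ (V : Matrix (HId T) (HId T) ℂ) (d : HId T → ℂ), IsUnit V ∧
      cj (alphaW T : ℂ) L = V * Matrix.diagonal d * V⁻¹ ∧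
      opN V * opN V⁻¹ ≤ (Fintype.card (HId T) : ℝ) ^ 40 := by
  obtain ⟨hdet, hL1, hL2⟩ := hL
  set n : ℝ := (Fintype.card (HId T) : ℝ) with hn
  have hn1 : 1 ≤ n := by
    have : 1 ≤ Fintype.card (HId T) := by
      have : 0 < Fintype.card (HId T) := by
        simp only [Fintype.card_prod, Fintype.card_fin]
        positivity
      exact this
    rw [hn]
    exact_mod_cast this
  have hn0 : 0 < n := by linarith
  have ha : 0 < alphaW T := by unfold alphaW; positivity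
  have ha1 : alphaW T ≤ 1 := by
    unfold alphaW
    apply pow_le_one₀ (by positivity)
    rw [div_le_one hn0]; exact hn1
  obtain ⟨γ, hγ, hγ2⟩ := exists_root (T := T) ha
  have hγ1 : γ ≤ 1 := by
    by_contra hcon
    push Not at hcon
    have := one_lt_pow₀ hcon (Nat.succ_ne_zero T)
    rw [Nat.succ_eq_add_one, hγ2] at this
    linarith
  have hζ := Complex.isPrimitiveRoot_exp (T + 1) (Nat.succ_ne_zero T)
  have hγ0 : (γ : ℂ) ≠ 0 := by exact_mod_cast hγ.ne'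
  obtain ⟨h1, h2, h3⟩ := cj_eq hγ0 hζ L hdet
  refine ⟨_, fun y => mu T (γ : ℂ) (Complex.exp (2 * Real.pi * Complex.I / ((T + 1 : ℕ) : ℂ))) y.1,
    h1, ?_, ?_⟩
  · rw [← h3]
    congr 1
    rw [← hγ2]; push_cast; rfl
  · rw [h2]
    set ζ : ℂ := Complex.exp (2 * Real.pi * Complex.I / ((T + 1 : ℕ) : ℂ)) with hζd
    have e1 : opN (L⁻¹) ≤ n ^ 2 * n ^ 2 := opN_le _ (by positivity) hL2
    have e2 : opN L ≤ n ^ 2 * n ^ 2 := opN_le _ (by positivity) hL1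
    have e3 : opN (V0 T (γ : ℂ) ζ) ≤ n ^ 2 * n ^ 20 := by
      refine opN_le _ (by positivity) fun x y => ?_
      refine (norm_V0_le hγ hγ1 hζ x y).trans (le_of_eq ?_)
      rw [hγ2]
      unfold alphaW
      rw [← hn, one_div, inv_pow, inv_inv]
    have e4 : opN (W0 T (γ : ℂ) ζ) ≤ n ^ 2 * 1 :=
      opN_le _ (by positivity) fun x y => norm_W0_le hγ hγ1 hζ x y
    have f1 : opN (L⁻¹ * V0 T (γ : ℂ) ζ) ≤ (n ^ 2 * n ^ 2) * (n ^ 2 * n ^ 20) :=
      (opN_mul_le _ _).trans (mul_le_mul e1 e3 (opN_nonneg _) (by positivity))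
    have f2 : opN (W0 T (γ : ℂ) ζ * L) ≤ (n ^ 2 * 1) * (n ^ 2 * n ^ 2) :=
      (opN_mul_le _ _).trans (mul_le_mul e4 e2 (opN_nonneg _) (by positivity))
    calc opN (L⁻¹ * V0 T (γ : ℂ) ζ) * opN (W0 T (γ : ℂ) ζ * L)
        ≤ ((n ^ 2 * n ^ 2) * (n ^ 2 * n ^ 20)) * ((n ^ 2 * 1) * (n ^ 2 * n ^ 2)) :=
          mul_le_mul f1 f2 (opN_nonneg _) (by positivity)
      _ = n ^ 32 := by ring
      _ ≤ n ^ 40 := pow_le_pow_right₀ hn1 (by norm_num)

/-- how `core` acts: the interior blocks -/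
lemma core_mulVec_succ {T : ℕ} (g : ℂ) (h : HId T → ℂ) (i : Fin (T + 1)) (hi : (i : ℕ) ≠ 0)
    (j : Fin (T + 1)) (hj : (i : ℕ) = (j : ℕ) + 1) (r : Fin (T + 1) × Fin T) :
    (core T g).mulVec h (i, r) = h (j, r) := by
  rw [Matrix.mulVec, dotProduct, Finset.sum_eq_single (j, r)]
  · unfold core
    simp [hj]
  · rintro ⟨k, s⟩ _ hks
    unfold core
    simp only
    by_cases hrs : r = s
    · subst hrs
      have hk : k ≠ j := fun h => hks (by rw [h])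
      have hk2 : ¬ ((i : ℕ) = (k : ℕ) + 1) := by
        intro h; apply hk; apply Fin.ext; omega
      rw [if_pos rfl, if_neg hk2, if_neg (fun h => hi h.1), zero_mul]
    · rw [if_neg hrs, zero_mul]
  · intro h; exact absurd (Finset.mem_univ _) h

/-- how `core` acts: block zero -/
lemma core_mulVec_zero {T : ℕ} (g : ℂ) (h : HId T → ℂ) (r : Fin (T + 1) × Fin T) :
    (core T g).mulVec h (0, r) = g * h (Fin.last T, r) := by
  rw [Matrix.mulVec, dotProduct, Finset.sum_eq_single (Fin.last T, r)]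
  · unfold core
    simp
  · rintro ⟨k, s⟩ _ hks
    unfold core
    simp only
    by_cases hrs : r = s
    · subst hrs
      have hk : k ≠ Fin.last T := fun h => hks (by rw [h])
      have hk2 : ¬ ((k : ℕ) = T) := by
        intro h; apply hk; apply Fin.ext; simpa using h
      rw [if_pos rfl, if_neg (by simp), if_neg (fun h => hk2 h.2), zero_mul]
    · rw [if_neg hrs, zero_mul]
  · intro h; exact absurd (Finset.mem_univ _) h

theorem eig_piece (T : ℕ) (g : ℝ) (hg : 0 ≤ g)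
    (L : Matrix (HId T) (HId T) ℂ) (hL : L.det ≠ 0) (μ : ℂ) (v : HId T → ℂ) (hv : v ≠ 0)
    (h : (cj (g : ℂ) L).mulVec v = μ • v) : ‖μ‖ ^ (T + 1) = g := by
  have hLu : IsUnit L.det := isUnit_iff_ne_zero.2 hL
  set w := L.mulVec v with hw
  have hcore : (core T (g : ℂ)).mulVec w = μ • w := by
    have h1 : L.mulVec ((cj (g : ℂ) L).mulVec v) = (core T (g : ℂ)).mulVec w := by
      rw [Matrix.mulVec_mulVec, hw, Matrix.mulVec_mulVec]
      congr 1
      unfold cj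
      rw [← Matrix.mul_assoc, ← Matrix.mul_assoc, Matrix.mul_nonsing_inv _ hLu, Matrix.one_mul]
    rw [← h1, h, Matrix.mulVec_smul]
  have hw0 : w ≠ 0 := by
    intro h0
    apply hv
    have h1 : (L⁻¹).mulVec w = v := by
      rw [hw, Matrix.mulVec_mulVec, Matrix.nonsing_inv_mul _ hLu, Matrix.one_mulVec]
    rw [← h1, h0, Matrix.mulVec_zero]
  -- w (i, r) = μ ^ (T - i) * w (T, r)
  have hstep : ∀ (m : ℕ) (hm : m ≤ T) (r : Fin (T + 1) × Fin T),
      w (⟨T - m, by omega⟩, r) = μ ^ m * w (Fin.last T, r) := by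
    intro m
    induction m with
    | zero =>
      intro hm r
      simp only [Nat.sub_zero, pow_zero, one_mul]
      rfl
    | succ m ih =>
      intro hm r
      have h1 := congrFun hcore (⟨T - m, by omega⟩, r)
      rw [core_mulVec_succ (g : ℂ) w ⟨T - m, by omega⟩ (by simp; omega)
        ⟨T - (m + 1), by omega⟩ (by simp; omega) r] at h1
      rw [h1, Pi.smul_apply, smul_eq_mul, ih (by omega) r]
      ring
  obtain ⟨r, hr⟩ : ∃ r, w (Fin.last T, r) ≠ 0 := by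
    by_contra hcon
    push Not at hcon
    apply hw0
    funext x
    obtain ⟨i, r⟩ := x
    have hi := i.isLt
    have h1 := hstep (T - i) (by omega) r
    have h2 : (⟨T - (T - (i : ℕ)), by omega⟩ : Fin (T + 1)) = i := by
      apply Fin.ext; simp; omega
    rw [h2, hcon r, mul_zero] at h1
    exact h1
  have h1 := congrFun hcore (0, r)
  rw [core_mulVec_zero, Pi.smul_apply, smul_eq_mul] at h1
  have h2 := hstep T le_rfl r
  have h3 : (⟨T - T, by omega⟩ : Fin (T + 1)) = 0 := by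
    apply Fin.ext; simp
  rw [h3] at h2
  rw [h2, ← mul_assoc] at h1
  have h4 : (g : ℂ) = μ * μ ^ T := mul_right_cancel₀ hr h1
  have h5 : ‖(g : ℂ)‖ = g := by rw [Complex.norm_real, Real.norm_of_nonneg hg]
  rw [← h5, h4, norm_mul, norm_pow, pow_succ, mul_comm]

end Pool.Agent.Helper964.Matvec
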