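import Pool.Agent.Helper634.Matvec.Defs
import Pool.Agent.Helper634.Matvec.Statement
import Pool.Agent.Helper964.Matvec.Core

/-!
Transfer of matrices from the index type `HId T` to `Fin n`; condition number and spectrum.
-/

namespace Pool.Agent.Helper964.Matvec

open Pool.Agent.Helper634.Matvec
open MeasureTheory

section re

variable {ι : Type*} [Fintype ι] [DecidableEq ι] {n : ℕ} (e : ι ≃ Fin n)

/-- the reindexed matrix -/
def re (B : Matrix ι ι ℂ) : Matrix (Fin n) (Fin n) ℂ := B.submatrix e.symm e.symm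

lemma re_mulVec (B : Matrix ι ι ℂ) (x : Fin n → ℂ) :
    (re e B).mulVec x = (B.mulVec (x ∘ e)) ∘ e.symm := by
  unfold re
  rw [Matrix.submatrix_mulVec_equiv]
  rfl

lemma re_mul (A B : Matrix ι ι ℂ) : re e (A * B) = re e A * re e B :=
  (Matrix.submatrix_mul_equiv A B e.symm e.symm e.symm).symm

lemma re_one : re e (1 : Matrix ι ι ℂ) = 1 := Matrix.submatrix_one_equiv e.symm

lemma re_inv (A : Matrix ι ι ℂ) : re e A⁻¹ = (re e A)⁻¹ :=
  (Matrix.inv_submatrix_equiv A e.symm e.symm).symm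

lemma re_diagonal (d : ι → ℂ) : re e (Matrix.diagonal d) = Matrix.diagonal (d ∘ e.symm) :=
  Matrix.submatrix_diagonal_equiv d e.symm

lemma re_isUnit {A : Matrix ι ι ℂ} (h : IsUnit A) : IsUnit (re e A) := by
  obtain ⟨u, rfl⟩ := h
  refine IsUnit.of_mul_eq_one (re e (u⁻¹ : (Matrix ι ι ℂ)ˣ).1) ?_
  rw [← re_mul, Units.mul_inv, re_one]

lemma re_diagonalizedBy {A V : Matrix ι ι ℂ} {d : ι → ℂ} (hV : IsUnit V)
    (h : A = V * Matrix.diagonal d * V⁻¹) : DiagonalizedBy (re e A) (re e V) := by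
  refine ⟨re_isUnit e hV, d ∘ e.symm, ?_⟩
  rw [h, re_mul, re_mul, re_inv, re_diagonal]

lemma re_opNorm (V : Matrix ι ι ℂ) : opNorm2 (re e V) ≤ opN V := by
  unfold opNorm2
  refine ContinuousLinearMap.opNorm_le_bound _ (opN_nonneg _) fun x => ?_
  set y : EuclideanSpace ℂ ι := WithLp.toLp 2 (fun i => x (e i)) with hy
  have h1 : ‖y‖ = ‖x‖ := by
    rw [EuclideanSpace.norm_eq, EuclideanSpace.norm_eq]
    congr 1
    exact e.sum_comp (fun i => ‖x i‖ ^ 2)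
  have h2 : ‖Matrix.toEuclideanCLM (𝕜 := ℂ) (re e V) x‖ =
      ‖Matrix.toEuclideanCLM (𝕜 := ℂ) V y‖ := by
    rw [EuclideanSpace.norm_eq, EuclideanSpace.norm_eq]
    congr 1
    rw [← e.sum_comp]
    refine Finset.sum_congr rfl fun i _ => ?_
    rw [Matrix.ofLp_toEuclideanCLM, Matrix.ofLp_toEuclideanCLM, re_mulVec]
    simp only [Function.comp_apply, Equiv.symm_apply_apply]
    rfl
  rw [h2, ← h1]
  exact ContinuousLinearMap.le_opNorm _ _

end re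

section kappa

variable {n : ℕ}

lemma opNorm2_nonneg (V : Matrix (Fin n) (Fin n) ℂ) : 0 ≤ opNorm2 V := norm_nonneg _

lemma one_le_kappa (hn : 1 ≤ n) {V : Matrix (Fin n) (Fin n) ℂ} (hV : IsUnit V) :
    1 ≤ opNorm2 V * opNorm2 V⁻¹ := by
  have : Nonempty (Fin n) := ⟨⟨0, by omega⟩⟩
  have h1 : V * V⁻¹ = 1 := Matrix.mul_nonsing_inv _ ((Matrix.isUnit_iff_isUnit_det V).1 hV)
  have h2 : opNorm2 (V * V⁻¹) ≤ opNorm2 V * opNorm2 V⁻¹ := by
    unfold opNorm2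
    rw [map_mul]
    exact norm_mul_le _ _
  rw [h1] at h2
  have h3 : opNorm2 (1 : Matrix (Fin n) (Fin n) ℂ) = 1 := by
    unfold opNorm2
    rw [map_one]
    exact norm_one
  rwa [h3] at h2

lemma one_le_kappaV (hn : 1 ≤ n) {A : Matrix (Fin n) (Fin n) ℂ} (hA : ∃ V, DiagonalizedBy A V) :
    1 ≤ kappaV A := by
  unfold kappaV
  obtain ⟨V, hV⟩ := hA
  refine le_csInf ⟨_, V, hV, rfl⟩ ?_
  rintro κ ⟨W, hW, rfl⟩
  exact one_le_kappa hn hW.1

lemma kappaV_le {A V : Matrix (Fin n) (Fin n) ℂ} (h : DiagonalizedBy A V) :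
    kappaV A ≤ opNorm2 V * opNorm2 V⁻¹ := by
  unfold kappaV
  refine csInf_le ⟨0, ?_⟩ ⟨V, h, rfl⟩
  rintro κ ⟨W, _, rfl⟩
  exact mul_nonneg (opNorm2_nonneg _) (opNorm2_nonneg _)

lemma eig_of_spectrum {A : Matrix (Fin n) (Fin n) ℂ} {μ : ℂ} (h : μ ∈ spectrum ℂ A) :
    ∃ v : Fin n → ℂ, v ≠ 0 ∧ A.mulVec v = μ • v := by
  rw [spectrum.mem_iff, Matrix.isUnit_iff_isUnit_det, isUnit_iff_ne_zero, not_not] at h
  obtain ⟨v, hv, hv2⟩ := Matrix.exists_mulVec_eq_zero_iff.2 h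
  refine ⟨v, hv, ?_⟩
  rw [Matrix.sub_mulVec, sub_eq_zero, Algebra.algebraMap_eq_smul_one, Matrix.smul_mulVec,
    Matrix.one_mulVec] at hv2
  exact hv2.symm

lemma acc_norm {A : Matrix (Fin n) (Fin n) ℂ} {g ε : ℝ} {lam : ℂ}
    (hA : ∀ μ ∈ spectrum ℂ A, ‖μ‖ = g) (h : Acceptable A ε lam) :
    ∃ μ : ℂ, ‖μ‖ = g ∧ ‖lam - μ‖ ≤ ε * g := by
  obtain ⟨μ, hμ, _, h2⟩ := h
  have h3 : topModulus A = g := by
    unfold topModulus
    have : {r : ℝ | ∃ μ ∈ spectrum ℂ A, r = ‖μ‖} = {g} := by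
      ext r
      constructor
      · rintro ⟨ν, hν, rfl⟩
        exact hA ν hν
      · intro hr
        exact ⟨μ, hμ, by rw [hA μ hμ]; exact hr⟩
    rw [this, csSup_singleton]
  rw [h3] at h2
  exact ⟨μ, hA μ hμ, h2⟩

end kappa

section specific

variable {T : ℕ} {n : ℕ} (e : HId T ≃ Fin n)

lemma spec_norm {g : ℝ} (hg : 0 ≤ g) {L : Matrix (HId T) (HId T) ℂ} (hL : L.det ≠ 0) {μ : ℂ}
    (hμ : μ ∈ spectrum ℂ (re e (cj (g : ℂ) L))) : ‖μ‖ ^ (T + 1) = g := by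
  obtain ⟨v, hv, hv2⟩ := eig_of_spectrum hμ
  refine eig_piece T g hg L hL μ (v ∘ e) ?_ ?_
  · intro h0
    apply hv
    funext i
    have := congrFun h0 (e.symm i)
    simpa using this
  · rw [re_mulVec] at hv2
    funext i
    have := congrFun hv2 (e i)
    simpa using this

/-- the modulus of the eigenvalues for `alpha` -/
noncomputable def gA (T : ℕ) : ℝ := alphaW T ^ ((1 : ℝ) / ((T : ℝ) + 1))

lemma alphaW_pos (hT : 1 ≤ T) : 0 < alphaW T := by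
  unfold alphaW
  have : 0 < Fintype.card (HId T) := by
    simp only [Fintype.card_prod, Fintype.card_fin]
    positivity
  have h2 : (0 : ℝ) < (Fintype.card (HId T) : ℝ) := by exact_mod_cast this
  positivity

lemma gA_pos (hT : 1 ≤ T) : 0 < gA T := Real.rpow_pos_of_pos (alphaW_pos hT) _

lemma gA_pow (hT : 1 ≤ T) : gA T ^ (T + 1) = alphaW T := by
  unfold gA
  rw [← Real.rpow_natCast, ← Real.rpow_mul (alphaW_pos hT).le]
  have : ((1 : ℝ) / ((T : ℝ) + 1)) * ((T + 1 : ℕ) : ℝ) = 1 := by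
    push_cast
    field_simp
  rw [this, Real.rpow_one]

lemma gB_pow (hT : 1 ≤ T) : (gA T / 2) ^ (T + 1) = betaW T := by
  rw [div_pow, gA_pow hT]
  rfl

lemma normA (hT : 1 ≤ T) {L : Matrix (HId T) (HId T) ℂ} (hL : L.det ≠ 0) :
    ∀ μ ∈ spectrum ℂ (re e (cj (alphaW T : ℂ) L)), ‖μ‖ = gA T := by
  intro μ hμ
  have h1 := spec_norm e (alphaW_pos hT).le hL hμ
  rw [← gA_pow hT] at h1
  exact (pow_left_inj₀ (norm_nonneg μ) (gA_pos hT).le (Nat.succ_ne_zero T)).1 h1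

lemma normB (hT : 1 ≤ T) {L : Matrix (HId T) (HId T) ℂ} (hL : L.det ≠ 0) :
    ∀ μ ∈ spectrum ℂ (re e (cj (betaW T : ℂ) L)), ‖μ‖ = gA T / 2 := by
  intro μ hμ
  have hb : 0 ≤ betaW T := by
    unfold betaW
    have := alphaW_pos hT
    positivity
  have h1 := spec_norm e hb hL hμ
  rw [← gB_pow hT] at h1
  have h2 := gA_pos hT
  exact (pow_left_inj₀ (norm_nonneg μ) (by linarith) (Nat.succ_ne_zero T)).1 h1

lemma diagA (hT : 10 ≤ T) {L : Matrix (HId T) (HId T) ℂ} (hL : GoodL L) (hn : 1 ≤ n) :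
    (∃ V, DiagonalizedBy (re e (cj (alphaW T : ℂ) L)) V) ∧
      1 ≤ kappaV (re e (cj (alphaW T : ℂ) L)) ∧
      kappaV (re e (cj (alphaW T : ℂ) L)) ≤ (Fintype.card (HId T) : ℝ) ^ 40 := by
  obtain ⟨V, d, hV, h1, h2⟩ := kappa_piece T hT L hL
  have h3 := re_diagonalizedBy e hV h1
  refine ⟨⟨_, h3⟩, one_le_kappaV hn ⟨_, h3⟩, ?_⟩
  refine (kappaV_le h3).trans ?_
  rw [← re_inv]
  exact (mul_le_mul (re_opNorm e V) (re_opNorm e V⁻¹) (opNorm2_nonneg _) (opN_nonneg _)).trans h2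

lemma diagB (hT : 1 ≤ T) {L : Matrix (HId T) (HId T) ℂ} (hL : L.det ≠ 0) :
    ∃ V, DiagonalizedBy (re e (cj (betaW T : ℂ) L)) V := by
  have hb : 0 < betaW T := by
    unfold betaW
    have := alphaW_pos hT
    positivity
  obtain ⟨V, d, hV, h1⟩ := diag_piece T hT (betaW T) hb L hL
  exact ⟨_, re_diagonalizedBy e hV h1⟩

end specific

end Pool.Agent.Helper964.Matvec
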