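import Pool.Agent.Helper634.Matvec.Defs
import Pool.Agent.Helper634.Matvec.Statement
import Pool.Agent.Helper964.Matvec.Transfer

/-!
The run of the algorithm in terms of `cont`; measurability.
-/

namespace Pool.Agent.Helper964.Matvec

open Pool.Agent.Helper634.Matvec
open MeasureTheory

universe u

section cont

variable {ι : Type*} [Fintype ι] (φ : ℕ → (ℕ → ι → ℂ) → (ι → ℂ)) (B : Matrix ι ι ℂ)

lemma cont_succ (n t : ℕ) (y : ℕ → ι → ℂ) :
    cont φ B (n + 1) t y =
      Function.update (cont φ B n t y) (t + n) (B.mulVec (φ (t + n) (cont φ B n t y))) := by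
  induction n generalizing t y with
  | zero => rfl
  | succ n ih =>
    show cont φ B (n + 1) (t + 1) (Function.update y t (B.mulVec (φ t y))) = _
    rw [ih]
    show _ = Function.update (cont φ B n (t + 1) (Function.update y t (B.mulVec (φ t y))))
      (t + (n + 1)) (B.mulVec (φ (t + (n + 1))
        (cont φ B n (t + 1) (Function.update y t (B.mulVec (φ t y))))))
    rw [show t + 1 + n = t + (n + 1) by ring]

lemma cont_stable {n m s : ℕ} (hs : s < n) (hnm : n ≤ m) :
    cont φ B m 0 0 s = cont φ B n 0 0 s := by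
  induction m, hnm using Nat.le_induction with
  | base => rfl
  | succ m hm ih =>
    rw [cont_succ, Function.update_of_ne (by omega), ih]

end cont

section run

variable {ι : Type} [Fintype ι] [DecidableEq ι] {n : ℕ} (e : ι ≃ Fin n) (a : MatVecAlg.{u} n)

/-- the transcript seen by the algorithm -/
def res (t : ℕ) (y : ℕ → ι → ℂ) : Fin t → Fin n → ℂ := fun s => y s ∘ e.symm

/-- the queries on the other index type -/
def phi (ω : a.Ω) (t : ℕ) (y : ℕ → ι → ℂ) : ι → ℂ := (a.query t ω (res e t y)) ∘ e

lemma answers_eq (B : Matrix ι ι ℂ) (ω : a.Ω) (t : ℕ) :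
    answers a (re e B) ω t = res e t (cont (phi e a ω) B t 0 0) := by
  induction t with
  | zero => funext i; exact i.elim0
  | succ t ih =>
    have h0 : answers a (re e B) ω (t + 1) =
        Fin.snoc (α := fun _ => Fin n → ℂ) (answers a (re e B) ω t)
          ((re e B).mulVec (a.query t ω (answers a (re e B) ω t))) := rfl
    rw [h0, ih, re_mulVec]
    funext s
    refine Fin.lastCases ?_ (fun s => ?_) s
    · rw [Fin.snoc_last]
      unfold res
      rw [Fin.val_last, cont_succ, zero_add, Function.update_self]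
      rfl
    · rw [Fin.snoc_castSucc]
      unfold res
      rw [Fin.val_castSucc, cont_succ, zero_add, Function.update_of_ne (by omega)]

lemma answers_eq' (B : Matrix ι ι ℂ) (ω : a.Ω) {t T : ℕ} (ht : t ≤ T) :
    answers a (re e B) ω t = res e t (cont (phi e a ω) B T 0 0) := by
  rw [answers_eq]
  funext s
  unfold res
  rw [cont_stable (phi e a ω) B s.isLt ht]

/-- the event that the run stops within `T` steps with a large output -/
def Ev (T : ℕ) (c : ℝ) (ω : a.Ω) : Set (ℕ → ι → ℂ) :=
  {y | ∃ t, t ≤ T ∧ (a.halt t ω (res e t y) = true ∧ ∀ s < t, a.halt s ω (res e s y) = false) ∧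
    c ≤ ‖a.output t ω (res e t y)‖}

lemma mem_Ev_iff (B : Matrix ι ι ℂ) (ω : a.Ω) (T : ℕ) (c : ℝ) :
    cont (phi e a ω) B T 0 0 ∈ Ev e a T c ω ↔
      ∃ t, t ≤ T ∧ StopsAfter a (re e B) ω t ∧ c ≤ ‖a.output t ω (answers a (re e B) ω t)‖ := by
  unfold Ev StopsAfter
  constructor
  · rintro ⟨t, ht, ⟨h1, h2⟩, h3⟩
    refine ⟨t, ht, ⟨?_, fun s hs => ?_⟩, ?_⟩
    · rw [answers_eq' e a B ω ht]; exact h1
    · rw [answers_eq' e a B ω (show s ≤ T by omega)]; exact h2 s hs
    · rw [answers_eq' e a B ω ht]; exact h3
  · rintro ⟨t, ht, ⟨h1, h2⟩, h3⟩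
    refine ⟨t, ht, ⟨?_, fun s hs => ?_⟩, ?_⟩
    · rw [← answers_eq' e a B ω ht]; exact h1
    · rw [← answers_eq' e a B ω (show s ≤ T by omega)]; exact h2 s hs
    · rw [← answers_eq' e a B ω ht]; exact h3

omit [Fintype ι] [DecidableEq ι] in
lemma measurable_res (t : ℕ) : Measurable (res e t) := by
  refine measurable_pi_lambda _ fun s => measurable_pi_lambda _ fun i => ?_
  exact (measurable_pi_apply (e.symm i)).comp (measurable_pi_apply (s : ℕ))

omit [Fintype ι] [DecidableEq ι] in
lemma measurable_phi_uncurry (t : ℕ) :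
    @Measurable (a.Ω × (ℕ → ι → ℂ)) (ι → ℂ) (@Prod.instMeasurableSpace _ _ a.mΩ _) _
      (fun q => phi e a q.1 t q.2) := by
  let _ := a.mΩ
  have h1 : Measurable (fun q : a.Ω × (ℕ → ι → ℂ) => a.query t q.1 (res e t q.2)) :=
    (a.measurable_query t).comp (measurable_fst.prodMk ((measurable_res e t).comp measurable_snd))
  refine measurable_pi_lambda _ fun i => ?_
  exact (measurable_pi_apply (e i)).comp h1

omit [Fintype ι] [DecidableEq ι] in
lemma measurable_phi (ω : a.Ω) (t : ℕ) : Measurable (phi e a ω t) := by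
  let _ := a.mΩ
  exact (measurable_phi_uncurry e a t).comp measurable_prodMk_left

omit [Fintype ι] [DecidableEq ι] in
lemma measurableSet_Ev (T : ℕ) (c : ℝ) :
    @MeasurableSet (a.Ω × (ℕ → ι → ℂ)) (@Prod.instMeasurableSpace _ _ a.mΩ _)
      {q | q.2 ∈ Ev e a T c q.1} := by
  let _ := a.mΩ
  have hh : ∀ t : ℕ, Measurable (fun q : a.Ω × (ℕ → ι → ℂ) => a.halt t q.1 (res e t q.2)) :=
    fun t => (a.measurable_halt t).comp
      (measurable_fst.prodMk ((measurable_res e t).comp measurable_snd))
  have ho : ∀ t : ℕ, Measurable (fun q : a.Ω × (ℕ → ι → ℂ) => a.output t q.1 (res e t q.2)) :=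
    fun t => (a.measurable_output t).comp
      (measurable_fst.prodMk ((measurable_res e t).comp measurable_snd))
  have h1 : {q : a.Ω × (ℕ → ι → ℂ) | q.2 ∈ Ev e a T c q.1} =
      ⋃ t : ℕ, ⋃ (_ : t ≤ T), (({q | a.halt t q.1 (res e t q.2) = true} ∩
        ⋂ s : ℕ, ⋂ (_ : s < t), {q | a.halt s q.1 (res e s q.2) = false}) ∩
        {q | c ≤ ‖a.output t q.1 (res e t q.2)‖}) := by
    ext q
    simp only [Ev, Set.mem_ofPred_eq, Set.mem_iUnion, Set.mem_inter_iff, Set.mem_iInter,
      exists_prop]
  rw [h1]
  refine MeasurableSet.iUnion fun t => MeasurableSet.iUnion fun _ => ?_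
  refine MeasurableSet.inter (MeasurableSet.inter ?_ ?_) ?_
  · exact measurableSet_eq_fun (hh t) measurable_const
  · exact MeasurableSet.iInter fun s => MeasurableSet.iInter fun _ =>
      measurableSet_eq_fun (hh s) measurable_const
  · exact measurableSet_le measurable_const (ho t).norm

omit [Fintype ι] [DecidableEq ι] in
lemma measurableSet_Ev_left (T : ℕ) (c : ℝ) (ω : a.Ω) : MeasurableSet (Ev e a T c ω) := by
  let _ := a.mΩ
  exact measurable_prodMk_left (x := ω) (measurableSet_Ev e a T c)

/-- joint measurability of the transcript -/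
lemma measurable_cont {X : Type*} [MeasurableSpace X] (M : X → Matrix ι ι ℂ)
    (hM : ∀ i j, Measurable (fun x => M x i j)) (N : ℕ) :
    @Measurable (a.Ω × X) (ℕ → ι → ℂ) (@Prod.instMeasurableSpace _ _ a.mΩ _) _
      (fun q => cont (phi e a q.1) (M q.2) N 0 0) := by
  let _ := a.mΩ
  induction N with
  | zero => exact measurable_const
  | succ N ih =>
    have h1 : Measurable (fun q : a.Ω × X =>
        phi e a q.1 (0 + N) (cont (phi e a q.1) (M q.2) N 0 0)) :=
      (measurable_phi_uncurry e a (0 + N)).comp (measurable_fst.prodMk ih)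
    have h2 : Measurable (fun q : a.Ω × X =>
        (M q.2).mulVec (phi e a q.1 (0 + N) (cont (phi e a q.1) (M q.2) N 0 0))) := by
      refine measurable_pi_lambda _ fun i => ?_
      unfold Matrix.mulVec dotProduct
      refine Finset.measurable_sum _ fun j _ => ?_
      exact ((hM i j).comp measurable_snd).mul ((measurable_pi_apply j).comp h1)
    have h3 : (fun q : a.Ω × X => cont (phi e a q.1) (M q.2) (N + 1) 0 0) =
        fun q => Function.update (cont (phi e a q.1) (M q.2) N 0 0) (0 + N)
          ((M q.2).mulVec (phi e a q.1 (0 + N) (cont (phi e a q.1) (M q.2) N 0 0))) := by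
      funext q
      exact cont_succ _ _ N 0 0
    rw [h3]
    refine measurable_pi_lambda _ fun s => ?_
    by_cases hs : s = 0 + N
    · subst hs
      simp only [Function.update_self]
      exact h2
    · simp only [Function.update_of_ne hs]
      exact (measurable_pi_apply s).comp ih

end run

section cj

variable {T : ℕ}

lemma continuous_entry (i j : HId T) :
    Continuous (fun L : HId T → HId T → ℂ => (Matrix.adjugate (L : Matrix (HId T) (HId T) ℂ)) i j) := by
  have : Continuous (fun L : Matrix (HId T) (HId T) ℂ => L.adjugate) :=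
    Continuous.matrix_adjugate continuous_id
  exact (continuous_apply j).comp ((continuous_apply i).comp this)

lemma measurable_cj (g : ℂ) (i j : HId T) :
    Measurable (fun L : Matrix (HId T) (HId T) ℂ => cj g L i j) := by
  have hent : ∀ k l : HId T, Measurable (fun L : Matrix (HId T) (HId T) ℂ => L k l) := by
    intro k l
    exact (measurable_pi_apply l).comp (measurable_pi_apply (X := fun _ : HId T => HId T → ℂ) k)
  have hdet : Measurable (fun L : Matrix (HId T) (HId T) ℂ => L.det) := by
    simp only [Matrix.det_apply]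
    refine Finset.measurable_sum _ fun σ _ => ?_
    exact (Finset.measurable_prod _ fun k _ => hent _ _).const_smul _
  have hadj : ∀ k l : HId T, Measurable (fun L : Matrix (HId T) (HId T) ℂ => L.adjugate k l) := by
    intro k l
    have h1 : Measurable (fun L : HId T → HId T → ℂ =>
        (Matrix.adjugate (L : Matrix (HId T) (HId T) ℂ)) k l) := (continuous_entry k l).measurable
    exact h1
  have hinv : ∀ k l : HId T, Measurable (fun L : Matrix (HId T) (HId T) ℂ => L⁻¹ k l) := by
    intro k l
    simp only [Matrix.inv_def, Ring.inverse_eq_inv', Matrix.smul_apply, smul_eq_mul]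
    exact hdet.inv.mul (hadj k l)
  unfold cj
  simp only [Matrix.mul_apply]
  refine Finset.measurable_sum _ fun k _ => Measurable.mul ?_ (hent k j)
  exact Finset.measurable_sum _ fun l _ => (hinv i l).mul measurable_const

end cj

end Pool.Agent.Helper964.Matvec
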