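import Pool.Agent.Helper634.Matvec.Defs
import Pool.Agent.Helper634.Matvec.Statement
import Pool.Agent.Helper964.Matvec.Growth
import Pool.Agent.Helper964.Matvec.Run

/-!
Final assembly of the lower bound: `target_of_main_ineq`.
-/

namespace Pool.Agent.Helper964.Matvec

open Pool.Agent.Helper634.Matvec
open MeasureTheory

universe u

lemma lower_bd {X : Type*} [MeasurableSpace X] (γ : Measure X) [IsProbabilityMeasure γ]
    (f : X → ENNReal) (bad : Set X) (hbad : γ bad ≤ 1 / 20) (c : ENNReal) (hc : c ≤ 1)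
    (h : ∀ x, x ∉ bad → c ≤ f x) : c ≤ ∫⁻ x, f x ∂γ + 1 / 20 := by
  set N := toMeasurable γ bad with hN
  have h1 : ∀ x, c ≤ f x + N.indicator (fun _ => (1 : ENNReal)) x := by
    intro x
    by_cases hx : x ∈ N
    · rw [Set.indicator_of_mem hx]
      exact hc.trans le_add_self
    · have hx' : x ∉ bad := fun h' => hx (subset_toMeasurable γ bad h')
      exact (h x hx').trans le_self_add
  calc c = ∫⁻ _, c ∂γ := by simp
    _ ≤ ∫⁻ x, (f x + N.indicator (fun _ => (1 : ENNReal)) x) ∂γ := lintegral_mono h1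
    _ = ∫⁻ x, f x ∂γ + ∫⁻ x, N.indicator (fun _ => (1 : ENNReal)) x ∂γ :=
        lintegral_add_right _ (measurable_const.indicator (measurableSet_toMeasurable γ bad))
    _ = ∫⁻ x, f x ∂γ + γ N := by
        rw [lintegral_indicator (measurableSet_toMeasurable γ bad)]
        simp [hN]
    _ ≤ ∫⁻ x, f x ∂γ + 1 / 20 := by
        rw [hN, measure_toMeasurable]
        exact add_le_add_right hbad _

lemma upper_bd {X : Type*} [MeasurableSpace X] (γ : Measure X) [IsProbabilityMeasure γ]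
    (f : X → ENNReal) (hf : ∀ x, f x ≤ 1) (bad : Set X) (hbad : γ bad ≤ 1 / 20) (c : ENNReal)
    (h : ∀ x, x ∉ bad → f x ≤ c) : ∫⁻ x, f x ∂γ ≤ c + 1 / 20 := by
  set N := toMeasurable γ bad with hN
  have h1 : ∀ x, f x ≤ c + N.indicator (fun _ => (1 : ENNReal)) x := by
    intro x
    by_cases hx : x ∈ N
    · rw [Set.indicator_of_mem hx]
      exact (hf x).trans le_add_self
    · have hx' : x ∉ bad := fun h' => hx (subset_toMeasurable γ bad h')
      exact (h x hx').trans le_self_add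
  calc ∫⁻ x, f x ∂γ ≤ ∫⁻ x, (c + N.indicator (fun _ => (1 : ENNReal)) x) ∂γ := lintegral_mono h1
    _ = ∫⁻ _, c ∂γ + ∫⁻ x, N.indicator (fun _ => (1 : ENNReal)) x ∂γ :=
        lintegral_add_right _ (measurable_const.indicator (measurableSet_toMeasurable γ bad))
    _ = c + γ N := by
        rw [lintegral_indicator (measurableSet_toMeasurable γ bad)]
        simp [hN]
    _ ≤ c + 1 / 20 := by
        rw [hN, measure_toMeasurable]
        exact add_le_add_right hbad _

lemma final_numbers {a b : ENNReal} (h1 : (2 / 3 : ENNReal) ≤ a + 1 / 20)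
    (h2 : a ≤ 1 / 20 + (11 / 10) * b) (h3 : b ≤ 1 / 3 + 1 / 20) : False := by
  have hb : b ≠ ⊤ := by
    refine ne_top_of_le_ne_top ?_ h3
    exact ENNReal.add_ne_top.2 ⟨ENNReal.div_ne_top (by simp) (by simp),
      ENNReal.div_ne_top (by simp) (by simp)⟩
  have h1120 : (11 / 10 : ENNReal) ≠ ⊤ := ENNReal.div_ne_top (by simp) (by simp)
  have h120 : (1 / 20 : ENNReal) ≠ ⊤ := ENNReal.div_ne_top (by simp) (by simp)
  have h13 : (1 / 3 : ENNReal) ≠ ⊤ := ENNReal.div_ne_top (by simp) (by simp)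
  have hr : (1 / 20 : ENNReal) + (11 / 10) * b ≠ ⊤ :=
    ENNReal.add_ne_top.2 ⟨h120, ENNReal.mul_ne_top h1120 hb⟩
  have ha : a ≠ ⊤ := ne_top_of_le_ne_top hr h2
  have e1 := ENNReal.toReal_mono (ENNReal.add_ne_top.2 ⟨ha, h120⟩) h1
  have e2 := ENNReal.toReal_mono hr h2
  have e3 := ENNReal.toReal_mono (ENNReal.add_ne_top.2 ⟨h13, h120⟩) h3
  rw [ENNReal.toReal_add ha h120] at e1
  rw [ENNReal.toReal_add h120 (ENNReal.mul_ne_top h1120 hb), ENNReal.toReal_mul] at e2
  rw [ENNReal.toReal_add h13 h120] at e3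
  simp only [ENNReal.toReal_div, ENNReal.toReal_ofNat, ENNReal.toReal_one] at e1 e2 e3
  linarith

theorem target_of_main_ineq
    (h : ∀ T, 10 ≤ T → ∃ γ : Measure (Matrix (HId T) (HId T) ℂ), IsProbabilityMeasure γ ∧
      γ {L | ¬ GoodL L} ≤ 1/20 ∧
      ∀ φ : ℕ → (ℕ → HId T → ℂ) → (HId T → ℂ), (∀ t, Measurable (φ t)) →
      ∀ E : Set (ℕ → HId T → ℂ), MeasurableSet E →
        γ {L | cont φ (cj (alphaW T) L) T 0 0 ∈ E} ≤
          1/20 + (11/10) * γ {L | cont φ (cj (betaW T) L) T 0 0 ∈ E}) : Target.{u} := by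
  rintro ⟨p, alg, halg⟩
  obtain ⟨T, hT, hp⟩ := exists_T p
  obtain ⟨γ, hγ, hbad, hmain⟩ := h T hT
  have hT1 : 1 ≤ T := by omega
  obtain ⟨n, hn⟩ : ∃ n, n = Fintype.card (HId T) := ⟨_, rfl⟩
  have hn1 : 1 ≤ n := by
    rw [hn, card_HId]
    have : 0 < (T + 1) * ((T + 1) * T) := by positivity
    exact this
  have e : HId T ≃ Fin n := hn ▸ Fintype.equivFin (HId T)
  have hall := halg n hn1 (1 / 8) (by norm_num) (by norm_num)
  set a := alg n (1 / 8) with ha
  let _ := a.mΩ
  have hprob : IsProbabilityMeasure a.P := a.prob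
  set c := 7 / 8 * gA T with hc
  have hg := gA_pos hT1
  -- the first family
  have hA : ∀ L : Matrix (HId T) (HId T) ℂ, L ∉ {L | ¬ GoodL L} → (2 / 3 : ENNReal) ≤
      a.P {ω | cont (phi e a ω) (cj (alphaW T) L) T 0 0 ∈ Ev e a T c ω} := by
    intro L hL
    have hL' : GoodL L := by simpa using hL
    obtain ⟨hV, hk1, hk2⟩ := diagA e hT hL' hn1
    have h1 := hall _ hV
    have hsub : Success a (re e (cj (alphaW T : ℂ) L)) (1 / 8)
        (MvPolynomial.eval ![Real.log (n * kappaV (re e (cj (alphaW T : ℂ) L))), 1 / (1 / 8)] p) ⊆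
        {ω | cont (phi e a ω) (cj (alphaW T) L) T 0 0 ∈ Ev e a T c ω} := by
      rintro ω ⟨t, ht, hst, hacc⟩
      refine (mem_Ev_iff e a _ ω T c).2 ⟨t, ?_, hst, ?_⟩
      · have hn1' : (1 : ℝ) ≤ n := by exact_mod_cast hn1
        have h2 := hp (Real.log (n * kappaV (re e (cj (alphaW T : ℂ) L)))) ?_ ?_
        · exact_mod_cast ht.trans h2
        · exact Real.log_nonneg (by nlinarith)
        · rw [← hn]
          have h3 : (n : ℝ) * kappaV (re e (cj (alphaW T : ℂ) L)) ≤ (n : ℝ) ^ 41 := by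
            rw [← hn] at hk2
            calc (n : ℝ) * kappaV (re e (cj (alphaW T : ℂ) L)) ≤ n * (n : ℝ) ^ 40 :=
                  mul_le_mul_of_nonneg_left hk2 (by linarith)
              _ = (n : ℝ) ^ 41 := by ring
          calc Real.log (n * kappaV (re e (cj (alphaW T : ℂ) L))) ≤ Real.log ((n : ℝ) ^ 41) :=
                Real.log_le_log (by nlinarith) h3
            _ = 41 * Real.log n := by rw [Real.log_pow]; norm_num
      · obtain ⟨μ, hμ1, hμ2⟩ := acc_norm (normA e hT1 hL'.1) hacc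
        have h2 : ‖μ‖ ≤ ‖a.output t ω (answers a (re e (cj (alphaW T : ℂ) L)) ω t)‖ +
            ‖a.output t ω (answers a (re e (cj (alphaW T : ℂ) L)) ω t) - μ‖ := by
          have := norm_sub_le (a.output t ω (answers a (re e (cj (alphaW T : ℂ) L)) ω t))
            (a.output t ω (answers a (re e (cj (alphaW T : ℂ) L)) ω t) - μ)
          simpa using this
        rw [hc]
        linarith
    have h2 := h1.trans (measureReal_mono hsub (measure_ne_top _ _))
    rw [Measure.real] at h2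
    have h3 := (ENNReal.ofReal_le_iff_le_toReal (measure_ne_top _ _)).2 h2
    refine le_trans (le_of_eq ?_) h3
    rw [ENNReal.ofReal_div_of_pos (by norm_num)]
    simp
  -- the second family
  have hSB : MeasurableSet {q : a.Ω × Matrix (HId T) (HId T) ℂ |
      cont (phi e a q.1) (cj (betaW T : ℂ) q.2) T 0 0 ∈ Ev e a T c q.1} := by
    have h1 : Measurable (fun q : a.Ω × Matrix (HId T) (HId T) ℂ =>
        (q.1, cont (phi e a q.1) (cj (betaW T : ℂ) q.2) T 0 0)) :=
      measurable_fst.prodMk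
        (measurable_cont e a (fun L => cj (betaW T : ℂ) L) (measurable_cj _) T)
    exact h1 (measurableSet_Ev e a T c)
  have hSA : MeasurableSet {q : a.Ω × Matrix (HId T) (HId T) ℂ |
      cont (phi e a q.1) (cj (alphaW T : ℂ) q.2) T 0 0 ∈ Ev e a T c q.1} := by
    have h1 : Measurable (fun q : a.Ω × Matrix (HId T) (HId T) ℂ =>
        (q.1, cont (phi e a q.1) (cj (alphaW T : ℂ) q.2) T 0 0)) :=
      measurable_fst.prodMk
        (measurable_cont e a (fun L => cj (alphaW T : ℂ) L) (measurable_cj _) T)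
    exact h1 (measurableSet_Ev e a T c)
  have hB : ∀ L : Matrix (HId T) (HId T) ℂ, L ∉ {L | ¬ GoodL L} →
      a.P {ω | cont (phi e a ω) (cj (betaW T) L) T 0 0 ∈ Ev e a T c ω} ≤ (1 / 3 : ENNReal) := by
    intro L hL
    have hL' : GoodL L := by simpa using hL
    have h1 := hall _ (diagB e hT1 hL'.1)
    set S := {ω | cont (phi e a ω) (cj (betaW T : ℂ) L) T 0 0 ∈ Ev e a T c ω} with hS
    have hSm : MeasurableSet S := measurable_prodMk_right (y := L) hSB
    set b := (MvPolynomial.eval ![Real.log (n * kappaV (re e (cj (betaW T : ℂ) L))),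
      1 / (1 / 8)] p) with hb
    have hdis : Disjoint S (Success a (re e (cj (betaW T : ℂ) L)) (1 / 8) b) := by
      rw [Set.disjoint_left]
      rintro ω hω ⟨t, _, hst, hacc⟩
      obtain ⟨t', _, hst', hout⟩ := (mem_Ev_iff e a _ ω T c).1 hω
      have htt : t = t' := by
        rcases lt_trichotomy t t' with hlt | heq | hgt
        · have h2 := hst'.2 t hlt
          rw [hst.1] at h2
          exact absurd h2 (by simp)
        · exact heq
        · have h2 := hst.2 t' hgt
          rw [hst'.1] at h2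
          exact absurd h2 (by simp)
      subst htt
      obtain ⟨μ, hμ1, hμ2⟩ := acc_norm (normB e hT1 hL'.1) hacc
      have h2 : ‖a.output t ω (answers a (re e (cj (betaW T : ℂ) L)) ω t)‖ ≤
          ‖a.output t ω (answers a (re e (cj (betaW T : ℂ) L)) ω t) - μ‖ + ‖μ‖ := by
        have := norm_add_le (a.output t ω (answers a (re e (cj (betaW T : ℂ) L)) ω t) - μ) μ
        simpa using this
      rw [hc] at hout
      linarith
    have h2 : a.P.real S + a.P.real (Success a (re e (cj (betaW T : ℂ) L)) (1 / 8) b) ≤ 1 := by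
      rw [← measureReal_union' hdis hSm]
      exact measureReal_le_one
    have h3 : a.P.real S ≤ 1 / 3 := by linarith
    rw [Measure.real] at h3
    have h4 := (ENNReal.le_ofReal_iff_toReal_le (measure_ne_top _ _) (by norm_num)).2 h3
    refine h4.trans (le_of_eq ?_)
    rw [ENNReal.ofReal_div_of_pos (by norm_num)]
    simp
  have i1 : (a.P.prod γ) {q : a.Ω × Matrix (HId T) (HId T) ℂ |
      cont (phi e a q.1) (cj (alphaW T : ℂ) q.2) T 0 0 ∈ Ev e a T c q.1} =
      ∫⁻ L, a.P {ω | cont (phi e a ω) (cj (alphaW T) L) T 0 0 ∈ Ev e a T c ω} ∂γ :=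
    Measure.prod_apply_symm hSA
  have i2 : (a.P.prod γ) {q : a.Ω × Matrix (HId T) (HId T) ℂ |
      cont (phi e a q.1) (cj (alphaW T : ℂ) q.2) T 0 0 ∈ Ev e a T c q.1} =
      ∫⁻ ω, γ {L | cont (phi e a ω) (cj (alphaW T) L) T 0 0 ∈ Ev e a T c ω} ∂a.P :=
    Measure.prod_apply hSA
  have i3 : (a.P.prod γ) {q : a.Ω × Matrix (HId T) (HId T) ℂ |
      cont (phi e a q.1) (cj (betaW T : ℂ) q.2) T 0 0 ∈ Ev e a T c q.1} =
      ∫⁻ L, a.P {ω | cont (phi e a ω) (cj (betaW T) L) T 0 0 ∈ Ev e a T c ω} ∂γ :=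
    Measure.prod_apply_symm hSB
  have i4 : (a.P.prod γ) {q : a.Ω × Matrix (HId T) (HId T) ℂ |
      cont (phi e a q.1) (cj (betaW T : ℂ) q.2) T 0 0 ∈ Ev e a T c q.1} =
      ∫⁻ ω, γ {L | cont (phi e a ω) (cj (betaW T) L) T 0 0 ∈ Ev e a T c ω} ∂a.P :=
    Measure.prod_apply hSB
  refine final_numbers ?_ ?_ ?_ (a := (a.P.prod γ) {q : a.Ω × Matrix (HId T) (HId T) ℂ |
      cont (phi e a q.1) (cj (alphaW T : ℂ) q.2) T 0 0 ∈ Ev e a T c q.1})
      (b := (a.P.prod γ) {q : a.Ω × Matrix (HId T) (HId T) ℂ |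
      cont (phi e a q.1) (cj (betaW T : ℂ) q.2) T 0 0 ∈ Ev e a T c q.1})
  · rw [i1]
    exact lower_bd γ _ _ hbad _ (ENNReal.div_le_of_le_mul (by norm_num)) hA
  · rw [i2, i4]
    have hmeas : Measurable (fun ω : a.Ω =>
        γ {L | cont (phi e a ω) (cj (betaW T) L) T 0 0 ∈ Ev e a T c ω}) :=
      measurable_measure_prodMk_left hSB
    calc ∫⁻ ω, γ {L | cont (phi e a ω) (cj (alphaW T) L) T 0 0 ∈ Ev e a T c ω} ∂a.P
        ≤ ∫⁻ ω, (1 / 20 + (11 / 10) *
            γ {L | cont (phi e a ω) (cj (betaW T) L) T 0 0 ∈ Ev e a T c ω}) ∂a.P :=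
          lintegral_mono fun ω => hmain (phi e a ω) (measurable_phi e a ω) _
            (measurableSet_Ev_left e a T c ω)
      _ = 1 / 20 + (11 / 10) *
            ∫⁻ ω, γ {L | cont (phi e a ω) (cj (betaW T) L) T 0 0 ∈ Ev e a T c ω} ∂a.P := by
          rw [lintegral_add_left measurable_const, lintegral_const_mul _ hmeas]
          simp
  · rw [i3]
    exact upper_bd γ _ (fun _ => prob_le_one) _ hbad _ hB

end Pool.Agent.Helper964.Matvec
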